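import Pool.Agent.H937.QS.Stm2
import Pool.Agent.H413.RS.Indep

/-!
Project QS, task CH (helper17): the charts are smooth.
-/

set_option autoImplicit false

open scoped Matrix TensorProduct
open Pool.Agent.H937.QS

universe u

namespace Pool.Agent.H17.QS.CH

/-- the structure constants commute with homomorphisms of fields -/
lemma sc_map {F L : Type u} [Field F] [Field L] (φ : F →+* L) (N : Matrix (Fin 4) (Fin 4) F)
    (hN : N.det ≠ 0) (i j : Fin 3) (m : Fin 4) : sc (N.map φ) i j m = φ (sc N i j m) := by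
  have hinv : (N.map φ)⁻¹ = N⁻¹.map φ := by
    apply Matrix.inv_eq_right_inv
    rw [← Matrix.map_mul, Matrix.mul_nonsing_inv N (isUnit_iff_ne_zero.2 hN),
      Matrix.map_one φ (map_zero φ) (map_one φ)]
  unfold sc co
  rw [hinv]
  simp only [Matrix.mulVec, dotProduct, Matrix.map_apply, map_sum, map_mul]

lemma pL_map {F L : Type u} [Field F] [Field L] (φ : F →+* L) (N : Matrix (Fin 4) (Fin 4) F)
    (hN : N.det ≠ 0) (h : pL (sc N) 2 ≠ 0) : pL (sc (N.map φ)) 2 ≠ 0 := by
  have e : ∀ {S : Type u} [CommRing S] (s : Fin 3 → Fin 3 → Fin 4 → S), pL s 2 = - s 0 1 3 :=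
    fun s => rfl
  rw [e] at h ⊢
  rw [sc_map φ N hN, ← map_neg]
  exact (map_ne_zero φ).2 h

theorem t_CH (hD : S_D.{u}) (hIND : S_IND.{u}) (hRET : S_RET.{u}) : S_CH.{u} := by
  intro k B R M _ _ _ _ _ _ j hj _ _ γ hγ ev hev m hm N hN hdet hpL
  classical
  let PM := MvPolynomial (Fin 4 × Fin 3) M
  let L := FractionRing PM
  let t : Fin 4 × Fin 3 → L := fun s => algebraMap PM L (MvPolynomial.X s)
  have htM : AlgebraicIndependent M t := by
    have h1 : (MvPolynomial.aeval t : PM →ₐ[M] L) = IsScalarTower.toAlgHom M PM L := by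
      apply MvPolynomial.algHom_ext
      intro i
      rw [MvPolynomial.aeval_X]
      rfl
    change Function.Injective (MvPolynomial.aeval t : PM →ₐ[M] L)
    rw [h1]
    exact IsFractionRing.injective PM L
  let ι : M →ₐ[k] L := IsScalarTower.toAlgHom k M L
  -- the algebra structures
  let _ : Algebra R M := γ.toRingHom.toAlgebra
  have hkRM : IsScalarTower k R M := IsScalarTower.of_algebraMap_eq fun x => (γ.commutes x).symm
  have hγ' : IsScalarTower.toAlgHom k R L = ι.comp γ := by
    ext x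
    exact IsScalarTower.algebraMap_apply R M L x
  have htR : AlgebraicIndependent R t := htM.restrictScalars hγ
  have htk : AlgebraicIndependent k t := htM.restrictScalars (algebraMap k M).injective
  let P := MvPolynomial (Fin 4 × Fin 3) k
  let F := FractionRing P
  let φ : F →ₐ[k] L := IsFractionRing.liftAlgHom (g := (MvPolynomial.aeval t : P →ₐ[k] L)) htk
  have hφ : ∀ s, φ (algebraMap P F (MvPolynomial.X s)) = t s := by
    intro s
    have h1 : φ (algebraMap P F (MvPolynomial.X s)) = (MvPolynomial.aeval t : P →ₐ[k] L)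
        (MvPolynomial.X s) := IsLocalization.lift_eq _ _
    rw [h1, MvPolynomial.aeval_X]
  have hinj : Function.Injective (Algebra.TensorProduct.productMap (ι.comp γ) φ) := by
    rw [← hγ']
    exact Pool.Agent.H413.RS.tensor_inj t htR φ hφ
  let ev' : B →ₐ[k] (Fin 4 → L) := (AlgHom.compLeft ι (Fin 4)).comp ev
  have hev' : ∀ b q, ev' b q = ι (ev b q) := fun b q => rfl
  obtain ⟨U, _, _, G, yU, aU, hU⟩ := hD k B R L j hj φ (ι.comp γ) hinj ev' (fun b q => by
    rw [hev', hev]
    rfl)
  obtain ⟨hi1, hi2, -⟩ := hIND k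
  refine hRET k B M L ι ev ev' hev' ((Tg k).map φ) (fun q => ?_) ?_ ?_ U G yU aU hU m hm N hN hdet hpL
  · change φ (Tg k q 0) = 1
    have h1 : Tg k q 0 = 1 := rfl
    rw [h1, map_one]
  · have h1 : ((Tg k).map φ).det = φ (Tg k).det := (AlgHom.map_det φ (Tg k)).symm
    rw [h1]
    exact (map_ne_zero φ).2 hi1
  · exact pL_map φ.toRingHom (Tg k) hi1 hi2

end Pool.Agent.H17.QS.CH
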